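import Pool.Agent.KS6_47.Clo.Fin

set_option autoImplicit false

/-!
# MP_335bcb_an: cloning groups of arbitrary endomorphisms

Definitions (in `Pool.Agent.KS6_47.Clo.Defs`): `BT`, `BT.size`, `BT.caret` (finite rooted binary
trees, number of leaves, attaching a caret at the `k`-th leaf), `clone` (the cloning map `κ_k`),
`Triple`, `Adm`, `Step`, `IsCloningGroup φ ps Γ cls` (`Γ` is the group of the classes of triples;
`ps = false`: the group `𝒯(∏^*(G))`, `ps = true`: the group `𝒯(Ψ^*(G))`), `vN Γ` (the group von
Neumann algebra `L(Γ)` on `ℓ²(Γ)`), `dirac Γ` (the trace vector), `IsCentralUnitary`, `HasGamma`,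
`HasNoncommutingCentralSequences`. In `Pool.Agent.KS6_47.Clo.Fin`: `AsympPeriodic`,
`LocallyPeriodic`, `FiniteOrbits`.
-/

namespace Pool.Agent.Results.MP_335bcb_an.AllEndomorphisms

open Pool.Agent.KS6_47.Clo

/-- Let `φ` be an arbitrary endomorphism of an arbitrary group `G`.
(1) The groups `𝒯(∏^*(G))` (`ps = false`) and `𝒯(Ψ^*(G))` (`ps = true`) exist.
(2) `L(𝒯(Ψ^*(G)))` always has property Gamma and two noncommuting central sequences.
(3) If `φ` is asymptotically periodic up to inner automorphisms, then the same holds for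
`L(𝒯(∏^*(G)))`.
(4) `φ` is asymptotically periodic if all its forward orbits are finite (for instance if `φ² = id`,
or if `G` is finite), or if `φ^a(g) c = c φ^b(g)` for all `g`, for some `a < b` and `c` (for instance
if `φ` is an automorphism of finite order modulo inner automorphisms); for countable `G` it
suffices (and is necessary) that on each finite subset such a relation holds. -/
theorem result :
    (∀ (G : Type) [Group G] (φ : G →* G) (ps : Bool),
      ∃ (Γ : Type) (_ : Group Γ) (cls : {t : Triple G // Adm ps t} → Γ),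
        IsCloningGroup φ ps Γ cls) ∧
    (∀ (G : Type) [Group G] (φ : G →* G) (Γ : Type) [Group Γ]
      (cls : {t : Triple G // Adm true t} → Γ), IsCloningGroup φ true Γ cls →
        HasGamma Γ ∧ HasNoncommutingCentralSequences Γ) ∧
    (∀ (G : Type) [Group G] (φ : G →* G) (ps : Bool) (Γ : Type) [Group Γ]
      (cls : {t : Triple G // Adm ps t} → Γ), AsympPeriodic φ → IsCloningGroup φ ps Γ cls →
        HasGamma Γ ∧ HasNoncommutingCentralSequences Γ) ∧
    (∀ (G : Type) [Group G] (φ : G →* G),
      (FiniteOrbits φ → AsympPeriodic φ) ∧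
      ((∃ (a b : ℕ) (c : G), a < b ∧ ∀ g, φ^[a] g * c = c * φ^[b] g) → AsympPeriodic φ) ∧
      (AsympPeriodic φ → LocallyPeriodic φ) ∧
      (Countable G → (AsympPeriodic φ ↔ LocallyPeriodic φ)) ∧
      ((∀ g, φ (φ g) = g) → FiniteOrbits φ) ∧ (Finite G → FiniteOrbits φ)) :=
  final

end Pool.Agent.Results.MP_335bcb_an.AllEndomorphisms
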